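import Pool.Agent.H83.ColCof

set_option autoImplicit false

namespace Pool.Agent.Results.MP_718903_gt.CountableT1

/-- `X` is D-separable -/
def IsSelDSeparable (X : Type) [TopologicalSpace X] : Prop :=
  ∀ D : ℕ → Set X, (∀ n, Dense (D n)) →
    ∃ F : ℕ → Set X, (∀ n, F n ⊆ D n ∧ DiscreteTopology (F n)) ∧ Dense (⋃ n, F n)

theorem result : ∃ (X : Type) (_ : TopologicalSpace X), Countable X ∧ T1Space X ∧
    FrechetUrysohnSpace X ∧ SequentialSpace X ∧ ¬ IsSelDSeparable X := by
  refine ⟨Pool.Agent.H83.ColCof.X, inferInstance, inferInstance, inferInstance, inferInstance,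
    inferInstance, fun h => ?_⟩
  obtain ⟨F, hF, hd⟩ := h _ Pool.Agent.H83.ColCof.dense_col
  exact Pool.Agent.H83.ColCof.not_dense F (fun n => (hF n).1) (fun n => (hF n).2) hd

end Pool.Agent.Results.MP_718903_gt.CountableT1
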