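import Pool.Agent.H83.TreeD

set_option autoImplicit false

namespace Pool.Agent.Results.MP_718903_gt.HausdorffFirstCountable

/-- `X` is d-separable -/
def IsDSeparable (X : Type 1) [TopologicalSpace X] : Prop :=
  ∃ E : ℕ → Set X, (∀ n, DiscreteTopology (E n)) ∧ Dense (⋃ n, E n)

/-- `X` is D-separable -/
def IsSelDSeparable (X : Type 1) [TopologicalSpace X] : Prop :=
  ∀ D : ℕ → Set X, (∀ n, Dense (D n)) →
    ∃ F : ℕ → Set X, (∀ n, F n ⊆ D n ∧ DiscreteTopology (F n)) ∧ Dense (⋃ n, F n)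

theorem result : ∃ (X : Type 1) (_ : TopologicalSpace X), T2Space X ∧ FirstCountableTopology X ∧
    SequentialSpace X ∧ IsDSeparable X ∧ ¬ IsSelDSeparable X := by
  refine ⟨Pool.Agent.H83.TreeD.X, inferInstance, inferInstance, inferInstance, inferInstance,
    ⟨_, Pool.Agent.H83.TreeD.lev_discrete, Pool.Agent.H83.TreeD.dense_levs⟩, fun h => ?_⟩
  obtain ⟨F, hF, hd⟩ := h _ (fun _ => Pool.Agent.H83.TreeD.dense_top)
  exact Pool.Agent.H83.TreeD.not_dense F (fun n => (hF n).1) (fun n => (hF n).2) hd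

end Pool.Agent.Results.MP_718903_gt.HausdorffFirstCountable
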